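import Pool.Agent.H20.RT.Stmts

/-!
# Board rt, row FAM: the family of words leading to the target
-/

set_option autoImplicit false

namespace Pool.RT

theorem FAM_thm (h1 : SIXStmt) (h2 : COLStmt) : FAMStmt := by
  intro t ht j
  induction j with
  | zero =>
    refine ⟨1, 30 + t, 5, by norm_num, by omega, fun β => ?_⟩
    have h3 := h2 β t
    rw [pow_zero, mul_one]
    have e1 : (32 - 31) * β + 1 = β + 1 := by omega
    have e2 : 31 * β + (30 + t) = 31 * β + 30 + t := by omega
    rw [e1, e2]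
    exact h3
  | succ j ih =>
    obtain ⟨a0, b0, k, ha, hb, h3⟩ := ih
    have hM : 1 ≤ 64 ^ j := Nat.one_le_pow _ _ (by norm_num)
    have hL' : 32 * 64 ^ (j + 1) = 64 * (32 * 64 ^ j) := by ring
    rw [hL']
    obtain ⟨d, hd⟩ : ∃ d, 32 * 64 ^ j = d + 32 := ⟨32 * 64 ^ j - 32, by omega⟩
    rw [hd] at ha h3 ⊢
    have e0 : d + 32 - 31 = d + 1 := by omega
    rw [e0] at h3
    have e1 : 64 * (d + 32) - 31 = 64 * d + 2017 := by omega
    rw [e1]
    obtain ⟨s, q, hs1, hs2, hq⟩ : ∃ s q : ℕ, 11 ≤ s ∧ s ≤ 74 ∧ 31 * s + b0 + 10 = 64 * q := by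
      rcases Nat.lt_or_ge ((31 * (118 - b0)) % 64) 11 with h4 | h4
      · refine ⟨(31 * (118 - b0)) % 64 + 64,
          (31 * ((31 * (118 - b0)) % 64 + 64) + b0 + 10) / 64, by omega, by omega, by omega⟩
      · refine ⟨(31 * (118 - b0)) % 64,
          (31 * ((31 * (118 - b0)) % 64) + b0 + 10) / 64, by omega, by omega, by omega⟩
    have hds : (d + 1) * 11 ≤ (d + 1) * s := Nat.mul_le_mul_left _ hs1
    have hds2 : (d + 1) * s ≤ (d + 1) * 74 := Nat.mul_le_mul_left _ hs2
    refine ⟨63 * q + (d + 1) * s + a0 - 11, q, k + 6, by omega, by omega, fun β => ?_⟩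
    have h4 := h1 ((d + 1) * (64 * β + s) + a0 - 11) (31 * β + q - 1)
    have e2 : 31 * β + q - 1 + 1 = 31 * β + q := by omega
    have e3 : 64 * (31 * β + q - 1) + 54 = 31 * (64 * β + s) + b0 := by omega
    have h5 : (d + 1) * (64 * β + s) = 64 * ((d + 1) * β) + (d + 1) * s := by ring
    have e4 : (d + 1) * (64 * β + s) + a0 - 11 + 11 = (d + 1) * (64 * β + s) + a0 := by
      rw [h5]
      omega
    have e5 : 63 * (31 * β + q) + ((d + 1) * (64 * β + s) + a0 - 11) =
        (64 * d + 2017) * β + (63 * q + (d + 1) * s + a0 - 11) := by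
      rw [h5]
      have h6 : (64 * d + 2017) * β = 64 * ((d + 1) * β) + 1953 * β := by ring
      rw [h6]
      omega
    rw [e2, e3, e4, e5] at h4
    rw [Function.iterate_add_apply, h4]
    exact h3 (64 * β + s)

end Pool.RT
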