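import Pool.Agent.H20.RT.Stmts

/-!
# Board rt, row RV4: digit reversal as `revk`
-/

set_option autoImplicit false

namespace Pool.RT

private theorem rv4_aux (m : List ℕ) (h : ∀ x ∈ m, x < 10) :
    revk m.length (Nat.ofDigits 10 m) = Nat.ofDigits 10 m.reverse := by
  induction m with
  | nil => rfl
  | cons a m ih =>
    have ha : a < 10 := h a List.mem_cons_self
    have ih' := ih fun x hx => h x (List.mem_cons_of_mem _ hx)
    rw [List.length_cons, revk, Nat.ofDigits_cons, List.reverse_cons, Nat.ofDigits_append,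
      List.length_reverse, Nat.ofDigits_singleton]
    have h1 : (a + 10 * Nat.ofDigits 10 m) % 10 = a := by omega
    have h2 : (a + 10 * Nat.ofDigits 10 m) / 10 = Nat.ofDigits 10 m := by omega
    rw [h1, h2, ih']
    ring

theorem RV4_thm : RV4Stmt := by
  intro k n h1 h2
  have h0 : n ≠ 0 := by
    have : 0 < 10 ^ k := by positivity
    omega
  have hl : (Nat.digits 10 n).length = k + 1 := by
    rw [Nat.length_digits 10 n (by norm_num) h0]
    congr 1
    exact (Nat.log_eq_iff (Or.inr ⟨by norm_num, h0⟩)).2 ⟨h1, h2⟩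
  have h3 := rv4_aux (Nat.digits 10 n) fun x hx => Nat.digits_lt_base (by norm_num) hx
  rw [hl, Nat.ofDigits_digits] at h3
  rw [rv, h3]

end Pool.RT
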